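import Mathlib

/-!
# Compact right topological semigroups: minimal left ideals and the smallest ideal
-/

namespace Pool.Agent.Q117.BN

open Set

/-- A two-sided ideal for the operation `op`. -/
def IsTwoSided {S : Type*} (op : S → S → S) (I : Set S) : Prop :=
  I.Nonempty ∧ ∀ s : S, ∀ x ∈ I, op s x ∈ I ∧ op x s ∈ I

/-- The intersection of all two-sided ideals. -/
def smallestIdeal {S : Type*} (op : S → S → S) : Set S := ⋂₀ {I | IsTwoSided op I}

/-- Left ideals. -/
def IsLeft {S : Type*} (op : S → S → S) (L : Set S) : Prop :=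
  L.Nonempty ∧ ∀ s : S, ∀ x ∈ L, op s x ∈ L

/-- Minimal left ideals. -/
def IsMin {S : Type*} (op : S → S → S) (L : Set S) : Prop :=
  IsLeft op L ∧ ∀ J, IsLeft op J → J ⊆ L → J = L

theorem IsMin.subset {S : Type*} {op : S → S → S} {L : Set S} (h : IsMin op L) :
    L ⊆ smallestIdeal op := by
  intro l hl I hI
  have hJ : {x | x ∈ L ∧ x ∈ I} = L := by
    refine h.2 _ ⟨?_, ?_⟩ fun x hx => hx.1
    · obtain ⟨y, hy⟩ := hI.1
      exact ⟨op y l, h.1.2 y l hl, (hI.2 l y hy).2⟩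
    · intro s x hx
      exact ⟨h.1.2 s x hx.1, (hI.2 s x hx.2).1⟩
  rw [← hJ] at hl
  exact hl.2

variable {S : Type*} [TopologicalSpace S] [CompactSpace S] [T2Space S] {op : S → S → S}

theorem exists_min (assoc : ∀ a b c, op (op a b) c = op a (op b c))
    (cont : ∀ q, Continuous (fun x => op x q)) {Λ : Set S} (hΛ : IsLeft op Λ) (hc : IsClosed Λ) :
    ∃ L, L ⊆ Λ ∧ IsClosed L ∧ IsMin op L := by
  obtain ⟨L, hLΛ, hL⟩ := zorn_superset_nonempty {J : Set S | IsClosed J ∧ IsLeft op J} (by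
    intro c hcs hch hcn
    refine ⟨⋂₀ c, ⟨?_, ?_, ?_⟩, fun s hs => sInter_subset_of_mem hs⟩
    · exact isClosed_sInter fun t ht => (hcs ht).1
    · have : Nonempty c := hcn.to_subtype
      exact IsCompact.nonempty_sInter_of_directed_nonempty_isCompact_isClosed
        (IsChain.directedOn hch.symm)
        (fun U hU => (hcs hU).2.1) (fun U hU => (hcs hU).1.isCompact) (fun U hU => (hcs hU).1)
    · intro s x hx t ht
      exact (hcs ht).2.2 s x (hx t ht)) Λ ⟨hc, hΛ⟩
  refine ⟨L, hLΛ, hL.1.1, hL.1.2, ?_⟩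
  intro J hJ hJL
  refine Subset.antisymm hJL ?_
  obtain ⟨q, hq⟩ := hJ.1
  have h1 : range (fun s => op s q) ⊆ J := by
    rintro _ ⟨s, rfl⟩
    exact hJ.2 s q hq
  have h2 : IsClosed (range (fun s => op s q)) := (isCompact_range (cont q)).isClosed
  have h3 : IsLeft op (range (fun s => op s q)) := by
    refine ⟨⟨op q q, q, rfl⟩, ?_⟩
    rintro s _ ⟨t, rfl⟩
    exact ⟨op s t, assoc s t q⟩
  exact (hL.2 ⟨h2, h3⟩ (h1.trans hJL)).trans h1

end Pool.Agent.Q117.BN
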