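import Pool.Agent.Q117.BN.Ultra

namespace Pool.Agent.Q117.BN

open Set Filter

attribute [local instance] Ultrafilter.mul Ultrafilter.add Ultrafilter.semigroup
  Ultrafilter.addSemigroup

/-- The set `A`. -/
def AA : Set ℕ+ := {y | 0 < padicValNat 2 (y : ℕ) ∧
  Nat.log 2 (padicValNat 3 (y : ℕ)) = Nat.log 2 (padicValNat 2 (y : ℕ)) ∧
  padicValNat 2 (y : ℕ) ≤ 2 ^ Nat.log 2 (padicValNat 2 (y : ℕ)) +
    padicValNat 2 (Nat.log 2 (padicValNat 2 (y : ℕ))) ∧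
  padicValNat 2 (Nat.log 2 (padicValNat 2 (y : ℕ))) =
    padicValNat 2 (Nat.log 2 (Nat.log 2 (y : ℕ)))}

theorem val_lt {p n : ℕ} [hp : Fact p.Prime] (hn : n ≠ 0) : padicValNat p n < n := by
  have h1 : p ^ padicValNat p n ≤ n := Nat.le_of_dvd (Nat.pos_of_ne_zero hn) pow_padicValNat_dvd
  exact (Nat.lt_pow_self hp.out.one_lt).trans_le h1

theorem val_le {p n : ℕ} [hp : Fact p.Prime] : padicValNat p n ≤ n := by
  rcases Nat.eq_zero_or_pos n with h | h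
  · rw [h]
    simp
  · exact (val_lt h.ne').le

theorem val_add {p a b : ℕ} [hp : Fact p.Prime] (ha : a ≠ 0) (hb : p ^ (padicValNat p a + 1) ∣ b) :
    padicValNat p (a + b) = padicValNat p a := by
  have hab : a + b ≠ 0 := by omega
  refine le_antisymm ?_ ?_
  · by_contra hcon
    push Not at hcon
    have h1 : p ^ (padicValNat p a + 1) ∣ a + b :=
      (pow_dvd_pow p hcon).trans pow_padicValNat_dvd
    have h2 : p ^ (padicValNat p a + 1) ∣ a := (Nat.dvd_add_left hb).1 h1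
    have h3 := (padicValNat_dvd_iff_le ha).1 h2
    omega
  · rw [← padicValNat_dvd_iff_le hab]
    exact dvd_add pow_padicValNat_dvd ((pow_dvd_pow p (Nat.le_succ _)).trans hb)

/-- There is no pattern `m, m + n, m 2 ^ n` in the set `AA`. -/
theorem no_pattern (m n : ℕ+) (h1 : m ∈ AA) (h2 : m + n ∈ AA) (h3 : m * 2 ^ (n : ℕ) ∈ AA) :
    False := by
  obtain ⟨a1, a2, a3, a4⟩ := h1
  obtain ⟨b1, b2, b3, b4⟩ := h2
  obtain ⟨c1, c2, c3, c4⟩ := h3
  set a := padicValNat 2 (m : ℕ) with ha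
  set k := Nat.log 2 a with hk
  have hm0 : (m : ℕ) ≠ 0 := m.pos.ne'
  have hn0 : (n : ℕ) ≠ 0 := n.pos.ne'
  have e2 : padicValNat 2 ((m * 2 ^ (n : ℕ) : ℕ+) : ℕ) = a + n := by
    rw [PNat.mul_coe, PNat.pow_coe, padicValNat.mul hm0 (by positivity)]
    congr 1
    exact padicValNat.prime_pow (p := 2) n
  have e3 : padicValNat 3 ((m * 2 ^ (n : ℕ) : ℕ+) : ℕ) = padicValNat 3 (m : ℕ) := by
    rw [PNat.mul_coe, PNat.pow_coe, padicValNat.mul hm0 (by positivity)]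
    have : padicValNat 3 (((2 : ℕ+) : ℕ) ^ (n : ℕ)) = 0 := by
      rw [padicValNat.pow]
      have : padicValNat 3 ((2 : ℕ+) : ℕ) = 0 := by
        apply padicValNat.eq_zero_of_not_dvd
        decide
      rw [this, mul_zero]
    rw [this, add_zero]
  rw [e2, e3] at c2
  rw [e2] at c3
  rw [a2] at c2
  rw [← c2] at c3
  have hka : 2 ^ k ≤ a := Nat.pow_log_le_self 2 a1.ne'
  have hn1 : (n : ℕ) ≤ padicValNat 2 k := by omega
  have hk0 : k ≠ 0 := by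
    intro h
    rw [h] at hn1
    simp at hn1
  have hna : (n : ℕ) < a := by
    have h4 : padicValNat 2 k < k := val_lt hk0
    have h5 : k < 2 ^ k := Nat.lt_two_pow_self
    omega
  -- the valuation of `m + n`
  have hvn : padicValNat 2 (n : ℕ) < n := val_lt hn0
  have f1 : padicValNat 2 ((m + n : ℕ+) : ℕ) = padicValNat 2 (n : ℕ) := by
    rw [PNat.add_coe, add_comm]
    refine val_add hn0 ?_
    have : 2 ^ a ∣ (m : ℕ) := pow_padicValNat_dvd
    exact (pow_dvd_pow 2 (by omega)).trans this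
  -- the logarithm of `m + n`
  have f2 : Nat.log 2 ((m + n : ℕ+) : ℕ) = Nat.log 2 (m : ℕ) := by
    rw [PNat.add_coe]
    set t := Nat.log 2 (m : ℕ) with ht
    have g1 : 2 ^ t ≤ (m : ℕ) := Nat.pow_log_le_self 2 hm0
    have g2 : (m : ℕ) < 2 ^ (t + 1) := Nat.lt_pow_succ_log_self (by norm_num) _
    have g3 : 2 ^ a ∣ (m : ℕ) := pow_padicValNat_dvd
    have g4 : a < t + 1 := by
      have := Nat.le_of_dvd m.pos g3
      exact (Nat.pow_lt_pow_iff_right (by norm_num)).1 (this.trans_lt g2)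
    have g5 : 2 ^ a ∣ 2 ^ (t + 1) := pow_dvd_pow 2 g4.le
    have g6 : (m : ℕ) + 2 ^ a ≤ 2 ^ (t + 1) := by
      obtain ⟨q, hq⟩ := g3
      obtain ⟨r, hr⟩ := g5
      rw [hq, hr] at g2 ⊢
      have : q < r := lt_of_mul_lt_mul_left g2 (Nat.zero_le _)
      calc 2 ^ a * q + 2 ^ a = 2 ^ a * (q + 1) := by ring
        _ ≤ 2 ^ a * r := Nat.mul_le_mul_left _ this
    have g7 : a < 2 ^ a := Nat.lt_two_pow_self
    exact Nat.log_eq_of_pow_le_of_lt_pow (by omega) (by omega)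
  rw [f1, f2] at b4
  rw [← a4] at b4
  have h6 : padicValNat 2 (Nat.log 2 (padicValNat 2 (n : ℕ))) ≤ Nat.log 2 (padicValNat 2 (n : ℕ)) :=
    val_le
  have h7 : Nat.log 2 (padicValNat 2 (n : ℕ)) ≤ padicValNat 2 (n : ℕ) := Nat.log_le_self _ _
  omega

/-- Numbers with valuation `i`. -/
theorem kj_val (i j : ℕ) : padicValNat 2 (2 ^ i * (2 * j + 1)) = i := by
  rw [padicValNat.mul (by positivity) (by omega), padicValNat.prime_pow]
  have : padicValNat 2 (2 * j + 1) = 0 := by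
    apply padicValNat.eq_zero_of_not_dvd
    omega
  rw [this, add_zero]

theorem kj_ge (i j : ℕ) : j ≤ 2 ^ i * (2 * j + 1) := by
  have : 1 ≤ 2 ^ i := Nat.one_le_two_pow
  nlinarith

theorem exists_e (i : ℕ) : ∃ e, EML e ∧ {y : ℕ+ | ∃ k l : ℕ, k ≠ 0 ∧ l ≠ 0 ∧ padicValNat 2 k = i ∧
    padicValNat 2 l = i ∧ padicValNat 2 (y : ℕ) = 2 ^ k ∧ padicValNat 3 (y : ℕ) = 2 ^ k ∧
    Nat.log 2 (y : ℕ) = 2 ^ l} ∈ e := by
  let ω : Ultrafilter ℕ := Filter.hyperfilter ℕ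
  have hge : ∀ M : ℕ, ∀ᶠ N in (ω : Filter ℕ), M ≤ N := by
    intro M
    have : {N : ℕ | M ≤ N} ∈ Filter.hyperfilter ℕ := by
      refine Filter.mem_hyperfilter_of_finite_compl ?_
      refine (Set.finite_lt_nat M).subset ?_
      intro N hN
      simpa using hN
    exact this
  let Q : ℕ → Prop := fun z => ∃ l, l ≠ 0 ∧ padicValNat 2 l = i ∧ Nat.log 2 z = 2 ^ l
  let Λ : Set (Ultrafilter ℕ+) := {u | ∀ n : ℕ, {y : ℕ+ | Q ((y : ℕ) + n)} ∈ u}
  have hΛc : IsClosed Λ := by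
    have : Λ = ⋂ n : ℕ, {u | {y : ℕ+ | Q ((y : ℕ) + n)} ∈ u} := by
      ext u
      simp [Λ]
    rw [this]
    exact isClosed_iInter fun n => ultrafilter_isClosed_basic _
  have hΛ : IsLeft (fun a b : Ultrafilter ℕ+ => a + b) Λ := by
    refine ⟨⟨ω.map (fun j => (2 : ℕ+) ^ (2 ^ (2 ^ i * (2 * j + 1)))), ?_⟩, ?_⟩
    · intro n
      have : ∀ᶠ j in (ω : Filter ℕ), Q ((((2 : ℕ+) ^ (2 ^ (2 ^ i * (2 * j + 1))) : ℕ+) : ℕ) + n) := by
        filter_upwards [hge n] with j hj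
        refine ⟨2 ^ i * (2 * j + 1), by positivity, kj_val i j, ?_⟩
        rw [PNat.pow_coe]
        change Nat.log 2 (2 ^ (2 ^ (2 ^ i * (2 * j + 1))) + n) = _
        have h1 := kj_ge i j
        set K := 2 ^ i * (2 * j + 1)
        have h2 : K < 2 ^ K := Nat.lt_two_pow_self
        have h3 : 2 ^ K < 2 ^ (2 ^ K) := Nat.lt_two_pow_self
        refine Nat.log_eq_of_pow_le_of_lt_pow (by omega) ?_
        rw [pow_succ]
        omega
      exact this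
    · intro s u hu n
      change {y : ℕ+ | Q ((y : ℕ) + n)} ∈ s + u
      rw [mem_add]
      refine Filter.Eventually.of_forall fun x => ?_
      have := hu ((x : ℕ) + n)
      have h2 : ∀ᶠ y : ℕ+ in (u : Filter ℕ+), Q ((y : ℕ) + ((x : ℕ) + n)) := this
      filter_upwards [h2] with y hy
      change Q (((x + y : ℕ+) : ℕ) + n)
      rw [PNat.add_coe]
      rw [show (x : ℕ) + (y : ℕ) + n = (y : ℕ) + ((x : ℕ) + n) by ring]
      exact hy
  obtain ⟨L, hL1, hLc, hL2⟩ := exists_min_add hΛ hΛc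
  obtain ⟨w, hw, hww⟩ := exists_idempotent_in_compact_add_subsemigroup
    (M := Ultrafilter ℕ+) Ultrafilter.continuous_add_left L hL2.1.1 hLc.isCompact
    (fun a _ b hb => hL2.1.2 a b hb)
  let Y1 : ℕ → Prop := fun z => ∃ k, k ≠ 0 ∧ padicValNat 2 k = i ∧ padicValNat 2 z = 2 ^ k ∧
    padicValNat 3 z = 2 ^ k
  let T : Set (Ultrafilter ℕ+) := {u | (∀ j : ℕ, {y : ℕ+ | 6 ^ j ∣ (y : ℕ)} ∈ u) ∧
    {y : ℕ+ | Y1 (y : ℕ)} ∈ u}
  have hTc : IsClosed T := by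
    have : T = (⋂ j : ℕ, {u | {y : ℕ+ | 6 ^ j ∣ (y : ℕ)} ∈ u}) ∩ {u | {y : ℕ+ | Y1 (y : ℕ)} ∈ u} := by
      ext u
      simp [T]
    rw [this]
    exact (isClosed_iInter fun n => ultrafilter_isClosed_basic _).inter (ultrafilter_isClosed_basic _)
  have hTadd : ∀ u ∈ T, ∀ v : Ultrafilter ℕ+, (∀ j : ℕ, {y : ℕ+ | 6 ^ j ∣ (y : ℕ)} ∈ v) →
      u + v ∈ T := by
    intro u hu v hv
    refine ⟨?_, ?_⟩
    · intro j
      rw [mem_add]
      have h1 : ∀ᶠ y : ℕ+ in (u : Filter ℕ+), 6 ^ j ∣ (y : ℕ) := hu.1 j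
      have h2 : ∀ᶠ y : ℕ+ in (v : Filter ℕ+), 6 ^ j ∣ (y : ℕ) := hv j
      filter_upwards [h1] with x hx
      filter_upwards [h2] with y hy
      change 6 ^ j ∣ ((x + y : ℕ+) : ℕ)
      rw [PNat.add_coe]
      exact dvd_add hx hy
    · rw [mem_add]
      have h1 : ∀ᶠ y : ℕ+ in (u : Filter ℕ+), Y1 (y : ℕ) := hu.2
      filter_upwards [h1] with x hx
      have h2 : ∀ᶠ y : ℕ+ in (v : Filter ℕ+), 6 ^ ((x : ℕ) + 1) ∣ (y : ℕ) := hv _
      filter_upwards [h2] with y hy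
      change Y1 ((x + y : ℕ+) : ℕ)
      rw [PNat.add_coe]
      obtain ⟨k, hk0, hk1, hk2, hk3⟩ := hx
      have hx0 : (x : ℕ) ≠ 0 := x.pos.ne'
      refine ⟨k, hk0, hk1, ?_, ?_⟩
      · rw [val_add hx0, hk2]
        refine Dvd.dvd.trans ?_ hy
        have h3 : padicValNat 2 (x : ℕ) < x := val_lt hx0
        exact (pow_dvd_pow 2 (by omega)).trans (pow_dvd_pow_of_dvd (by norm_num) _)
      · rw [val_add hx0, hk3]
        refine Dvd.dvd.trans ?_ hy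
        have h3 : padicValNat 3 (x : ℕ) < x := val_lt hx0
        exact (pow_dvd_pow 3 (by omega)).trans (pow_dvd_pow_of_dvd (by norm_num) _)
  have hu0 : ω.map (fun j => (6 : ℕ+) ^ (2 ^ (2 ^ i * (2 * j + 1)))) ∈ T := by
    refine ⟨?_, ?_⟩
    · intro M
      have : ∀ᶠ j in (ω : Filter ℕ), 6 ^ M ∣ (((6 : ℕ+) ^ (2 ^ (2 ^ i * (2 * j + 1))) : ℕ+) : ℕ) := by
        filter_upwards [hge M] with j hj
        rw [PNat.pow_coe]
        change 6 ^ M ∣ 6 ^ (2 ^ (2 ^ i * (2 * j + 1)))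
        have h1 := kj_ge i j
        set K := 2 ^ i * (2 * j + 1)
        have h2 : K < 2 ^ K := Nat.lt_two_pow_self
        exact pow_dvd_pow 6 (by omega)
      exact this
    · have : ∀ᶠ j in (ω : Filter ℕ), Y1 (((6 : ℕ+) ^ (2 ^ (2 ^ i * (2 * j + 1))) : ℕ+) : ℕ) := by
        refine Filter.Eventually.of_forall fun j => ?_
        refine ⟨2 ^ i * (2 * j + 1), by positivity, kj_val i j, ?_, ?_⟩
        · rw [PNat.pow_coe]
          change padicValNat 2 (6 ^ (2 ^ (2 ^ i * (2 * j + 1)))) = _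
          rw [padicValNat.pow]
          have : padicValNat 2 6 = 1 := by
            have : (6 : ℕ) = 2 * 3 := by norm_num
            rw [this, padicValNat.mul (by norm_num) (by norm_num), padicValNat_self,
              padicValNat.eq_zero_of_not_dvd (by norm_num)]
          rw [this, mul_one]
        · rw [PNat.pow_coe]
          change padicValNat 3 (6 ^ (2 ^ (2 ^ i * (2 * j + 1)))) = _
          rw [padicValNat.pow]
          have : padicValNat 3 6 = 1 := by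
            have : (6 : ℕ) = 3 * 2 := by norm_num
            rw [this, padicValNat.mul (by norm_num) (by norm_num), padicValNat_self,
              padicValNat.eq_zero_of_not_dvd (by norm_num)]
          rw [this, mul_one]
      exact this
  have hw6 : ∀ j : ℕ, {y : ℕ+ | 6 ^ j ∣ (y : ℕ)} ∈ w := fun j => idem_dvd hww (6 ^ j) (by positivity)
  obtain ⟨e, he, hee⟩ := exists_idempotent_in_compact_add_subsemigroup
    (M := Ultrafilter ℕ+) Ultrafilter.continuous_add_left (T ∩ L)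
    ⟨_, hTadd _ hu0 w hw6, hL2.1.2 _ _ hw⟩ (hTc.inter hLc).isCompact
    (fun a ha b hb => ⟨hTadd a ha.1 b hb.1.1, hL2.1.2 a b hb.2⟩)
  refine ⟨e, ⟨hee, L, hL2, he.2⟩, ?_⟩
  have h1 : ∀ᶠ y : ℕ+ in (e : Filter ℕ+), Y1 (y : ℕ) := he.1.2
  have h2 : ∀ᶠ y : ℕ+ in (e : Filter ℕ+), Q ((y : ℕ) + 0) := hL1 he.2 0
  have : ∀ᶠ y : ℕ+ in (e : Filter ℕ+), ∃ k l : ℕ, k ≠ 0 ∧ l ≠ 0 ∧ padicValNat 2 k = i ∧
    padicValNat 2 l = i ∧ padicValNat 2 (y : ℕ) = 2 ^ k ∧ padicValNat 3 (y : ℕ) = 2 ^ k ∧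
    Nat.log 2 (y : ℕ) = 2 ^ l := by
    filter_upwards [h1, h2] with y hy1 hy2
    obtain ⟨k, a1, a2, a3, a4⟩ := hy1
    obtain ⟨l, b1, b2, b3⟩ := hy2
    exact ⟨k, l, a1, b1, a2, b2, a3, a4, b3⟩
  exact this

/-- The dilates of `AA` have large intersections. -/
theorem exists_eN (N : ℕ) :
    ∃ e, EML e ∧ {y : ℕ+ | ∀ x : ℕ+, (x : ℕ) ≤ N → x * y ∈ AA} ∈ e := by
  obtain ⟨e, he, hY⟩ := exists_e (N + 2)
  refine ⟨e, he, Filter.mem_of_superset hY ?_⟩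
  rintro y ⟨k, l, hk0, hl0, hk, hl, hy2, hy3, hyl⟩ x hx
  have hx0 : (x : ℕ) ≠ 0 := x.pos.ne'
  have hy0 : (y : ℕ) ≠ 0 := y.pos.ne'
  have hkN : N + 2 < k := by rw [← hk]; exact val_lt hk0
  have hlN : N + 2 < l := by rw [← hl]; exact val_lt hl0
  have h2k : k < 2 ^ k := Nat.lt_two_pow_self
  have h2l : l < 2 ^ l := Nat.lt_two_pow_self
  have hx2 : padicValNat 2 (x : ℕ) < x := val_lt hx0
  have hx3 : padicValNat 3 (x : ℕ) < x := val_lt hx0
  have e2 : padicValNat 2 ((x * y : ℕ+) : ℕ) = padicValNat 2 (x : ℕ) + 2 ^ k := by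
    rw [PNat.mul_coe, padicValNat.mul hx0 hy0, hy2]
  have e3 : padicValNat 3 ((x * y : ℕ+) : ℕ) = padicValNat 3 (x : ℕ) + 2 ^ k := by
    rw [PNat.mul_coe, padicValNat.mul hx0 hy0, hy3]
  have l2 : Nat.log 2 (padicValNat 2 (x : ℕ) + 2 ^ k) = k :=
    Nat.log_eq_of_pow_le_of_lt_pow (by omega) (by rw [pow_succ]; omega)
  have l3 : Nat.log 2 (padicValNat 3 (x : ℕ) + 2 ^ k) = k :=
    Nat.log_eq_of_pow_le_of_lt_pow (by omega) (by rw [pow_succ]; omega)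
  have g1 : 2 ^ (2 ^ l) ≤ (y : ℕ) := by
    rw [← hyl]
    exact Nat.pow_log_le_self 2 hy0
  have g2 : (y : ℕ) < 2 ^ (2 ^ l + 1) := by
    rw [← hyl]
    exact Nat.lt_pow_succ_log_self (by norm_num) _
  have g3 : (x : ℕ) < 2 ^ N + 1 := by
    have := Nat.lt_two_pow_self (n := N)
    omega
  have t1 : 2 ^ l ≤ Nat.log 2 ((x * y : ℕ+) : ℕ) := by
    refine Nat.le_log_of_pow_le (by norm_num) ?_
    rw [PNat.mul_coe]
    exact g1.trans (Nat.le_mul_of_pos_left _ x.pos)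
  have t2 : Nat.log 2 ((x * y : ℕ+) : ℕ) < 2 ^ l + 1 + N := by
    refine Nat.log_lt_of_lt_pow (by rw [PNat.mul_coe]; exact Nat.mul_ne_zero hx0 hy0) ?_
    rw [PNat.mul_coe, pow_add, mul_comm]
    exact Nat.mul_lt_mul_of_lt_of_le g2 (by omega) (by positivity)
  have lt : Nat.log 2 (Nat.log 2 ((x * y : ℕ+) : ℕ)) = l :=
    Nat.log_eq_of_pow_le_of_lt_pow t1 (by rw [pow_succ]; omega)
  refine ⟨?_, ?_, ?_, ?_⟩
  · rw [e2]
    omega
  · rw [e2, e3, l2, l3]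
  · rw [e2, l2, hk]
    omega
  · rw [e2, l2, lt, hk, hl]

end Pool.Agent.Q117.BN
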