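import Pool.Agent.Q117.BN.Gen

/-!
# Minimal idempotents in the space of ultrafilters on the positive integers
-/

namespace Pool.Agent.Q117.BN

open Set Filter

attribute [local instance] Ultrafilter.mul Ultrafilter.add Ultrafilter.semigroup
  Ultrafilter.addSemigroup

/-- `e` is an additive idempotent in a minimal left ideal. -/
def EML (e : Ultrafilter ℕ+) : Prop :=
  e + e = e ∧ ∃ L : Set (Ultrafilter ℕ+), IsMin (fun a b => a + b) L ∧ e ∈ L

theorem mem_add {u v : Ultrafilter ℕ+} {B : Set ℕ+} :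
    B ∈ u + v ↔ ∀ᶠ x in (u : Filter ℕ+), ∀ᶠ y in (v : Filter ℕ+), x + y ∈ B :=
  Ultrafilter.eventually_add u v (· ∈ B)

theorem mem_mul' {u v : Ultrafilter ℕ+} {B : Set ℕ+} :
    B ∈ u * v ↔ ∀ᶠ x in (u : Filter ℕ+), ∀ᶠ y in (v : Filter ℕ+), x * y ∈ B :=
  Ultrafilter.eventually_mul u v (· ∈ B)

/-- An idempotent ultrafilter contains the multiples of `N`. -/
theorem idem_dvd {e : Ultrafilter ℕ+} (he : e + e = e) (N : ℕ) (hN : 0 < N) :
    ∀ᶠ g : ℕ+ in (e : Filter ℕ+), N ∣ (g : ℕ) := by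
  have : NeZero N := ⟨hN.ne'⟩
  let c : ℕ+ → ZMod N := fun g => ((g : ℕ) : ZMod N)
  obtain ⟨a, ha⟩ := Ultrafilter.eq_pure_of_finite (e.map c)
  have h1 : ∀ᶠ g in (e : Filter ℕ+), c g = a := by
    have : {a} ∈ e.map c := by rw [ha]; exact Ultrafilter.mem_pure.2 rfl
    exact this
  have h2 : ∀ᶠ g in ((e + e : Ultrafilter ℕ+) : Filter ℕ+), c g = a := by rw [he]; exact h1
  rw [Ultrafilter.eventually_add] at h2
  obtain ⟨g, hg, hg'⟩ := (h1.and h2).exists
  obtain ⟨h, hh, hh'⟩ := (h1.and hg').exists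
  have h3 : a + a = a := by
    have : c (g + h) = c g + c h := by simp [c]
    rw [hg, hh, hh'] at this
    exact this.symm
  have h4 : a = 0 := by simpa using h3
  filter_upwards [h1] with g hg
  rw [h4] at hg
  exact (ZMod.natCast_eq_zero_iff _ _).1 hg

/-- Dilation. -/
noncomputable def dil (x : ℕ+) (u : Ultrafilter ℕ+) : Ultrafilter ℕ+ := u.map (fun y => x * y)

theorem mem_dil {x : ℕ+} {u : Ultrafilter ℕ+} {B : Set ℕ+} :
    B ∈ dil x u ↔ ∀ᶠ y in (u : Filter ℕ+), x * y ∈ B := Iff.rfl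

theorem dil_add (x : ℕ+) (u v : Ultrafilter ℕ+) : dil x (u + v) = dil x u + dil x v := by
  ext B
  rw [mem_dil, mem_add]
  have h1 : (∀ᶠ y in ((u + v : Ultrafilter ℕ+) : Filter ℕ+), x * y ∈ B) ↔
      ∀ᶠ a in (u : Filter ℕ+), ∀ᶠ b in (v : Filter ℕ+), x * (a + b) ∈ B :=
    Ultrafilter.eventually_add u v (fun y => x * y ∈ B)
  rw [h1]
  have h2 : (∀ᶠ a in (dil x u : Filter ℕ+), ∀ᶠ b in (dil x v : Filter ℕ+), a + b ∈ B) ↔
      ∀ᶠ a in (u : Filter ℕ+), ∀ᶠ b in (v : Filter ℕ+), x * a + x * b ∈ B := Iff.rfl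
  rw [h2]
  simp only [mul_add]

theorem of_dvd {x : ℕ+} {y : Ultrafilter ℕ+} (h : ∀ᶠ a in (y : Filter ℕ+), x ∣ a) :
    ∃ y', y = dil x y' := by
  classical
  let φ : ℕ+ → ℕ+ := fun z => if h : x ∣ z then h.choose else 1
  have hφ : ∀ z, x ∣ z → x * φ z = z := by
    intro z hz
    simp only [φ]
    rw [dif_pos hz]
    exact hz.choose_spec.symm
  refine ⟨y.map φ, ?_⟩
  ext B
  rw [mem_dil]
  change B ∈ y ↔ ∀ᶠ a in (y : Filter ℕ+), x * φ a ∈ B
  constructor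
  · intro hB
    have hB' : ∀ᶠ a in (y : Filter ℕ+), a ∈ B := hB
    filter_upwards [h, hB'] with a ha hb
    rw [hφ a ha]
    exact hb
  · intro hB
    have : ∀ᶠ a in (y : Filter ℕ+), a ∈ B := by
      filter_upwards [h, hB] with a ha hb
      rw [hφ a ha] at hb
      exact hb
    exact this

theorem isLeft_range (q : Ultrafilter ℕ+) :
    IsLeft (fun a b : Ultrafilter ℕ+ => a + b) (range (fun s : Ultrafilter ℕ+ => s + q)) := by
  refine ⟨⟨q + q, q, rfl⟩, ?_⟩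
  rintro s _ ⟨t, rfl⟩
  exact ⟨s + t, add_assoc s t q⟩

theorem exists_min_add {Λ : Set (Ultrafilter ℕ+)}
    (hΛ : IsLeft (fun a b : Ultrafilter ℕ+ => a + b) Λ) (hc : IsClosed Λ) :
    ∃ L, L ⊆ Λ ∧ IsClosed L ∧ IsMin (fun a b : Ultrafilter ℕ+ => a + b) L :=
  exists_min (fun a b c => add_assoc a b c) (fun q => Ultrafilter.continuous_add_left q) hΛ hc

/-- Dilations of minimal idempotents are minimal idempotents. -/
theorem EML.dil {e : Ultrafilter ℕ+} (he : EML e) (x : ℕ+) : EML (dil x e) := by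
  obtain ⟨hee, L, hL, heL⟩ := he
  have hd : BN.dil x e + BN.dil x e = BN.dil x e := by rw [← dil_add, hee]
  refine ⟨hd, ?_⟩
  obtain ⟨L', hL'1, hL'c, hL'2⟩ := exists_min_add (isLeft_range (BN.dil x e))
    (isCompact_range (Ultrafilter.continuous_add_left (BN.dil x e))).isClosed
  refine ⟨L', hL'2, ?_⟩
  obtain ⟨w, hw, hww⟩ := exists_idempotent_in_compact_add_subsemigroup
    (M := Ultrafilter ℕ+) Ultrafilter.continuous_add_left L' hL'2.1.1 hL'c.isCompact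
    (fun a _ b hb => hL'2.1.2 a b hb)
  obtain ⟨y, hy⟩ := hL'1 hw
  have hxdvd : ∀ u : Ultrafilter ℕ+, u + u = u → ∀ᶠ a in (u : Filter ℕ+), x ∣ a := by
    intro u hu
    filter_upwards [idem_dvd hu x x.pos] with a ha
    exact PNat.dvd_iff.2 ha
  have hy2 : ∀ᶠ a in (y : Filter ℕ+), x ∣ a := by
    have h1 := hxdvd w hww
    rw [← hy] at h1
    have h2 := (Ultrafilter.eventually_add y (BN.dil x e) (fun a => x ∣ a)).1 h1
    filter_upwards [h2] with a ha
    obtain ⟨b, hb1, hb2⟩ := (ha.and (hxdvd _ hd)).exists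
    rw [PNat.dvd_iff] at hb1 hb2 ⊢
    rw [PNat.add_coe] at hb1
    exact (Nat.dvd_add_left hb2).1 hb1
  obtain ⟨y', rfl⟩ := of_dvd hy2
  have hJ : {l | l ∈ L ∧ BN.dil x l ∈ L'} = L := by
    refine hL.2 _ ⟨⟨y' + e, hL.1.2 _ _ heL, ?_⟩, ?_⟩ fun l hl => hl.1
    · rw [dil_add]
      have : BN.dil x y' + BN.dil x e = w := hy
      rw [this]
      exact hw
    · rintro s l ⟨hl1, hl2⟩
      refine ⟨hL.1.2 _ _ hl1, ?_⟩
      rw [dil_add]
      exact hL'2.1.2 _ _ hl2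
  have := heL
  rw [← hJ] at this
  exact this.2

/-- The abstract existence theorem. -/
theorem exists_p (A : Set ℕ+)
    (h : ∀ N : ℕ, ∃ e, EML e ∧ {y : ℕ+ | ∀ x : ℕ+, (x : ℕ) ≤ N → x * y ∈ A} ∈ e) :
    ∃ p : Ultrafilter ℕ+, p ∈ smallestIdeal (fun a b : Ultrafilter ℕ+ => a * b) ∧ p * p = p ∧
      (∀ B ∈ p, ∃ u : Ultrafilter ℕ+, u ∈ smallestIdeal (fun a b : Ultrafilter ℕ+ => a + b) ∧
        u + u = u ∧ B ∈ u) ∧ A ∈ p := by
  choose e he1 he2 using h
  let ω : Ultrafilter ℕ := Filter.hyperfilter ℕ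
  let r : Ultrafilter ℕ+ := ω.bind e
  have hr : ∀ B : Set ℕ+, B ∈ r ↔ ∀ᶠ N in (ω : Filter ℕ), B ∈ e N := fun B => Iff.rfl
  have hleft : IsLeft (fun a b : Ultrafilter ℕ+ => a * b) (range (fun s : Ultrafilter ℕ+ => s * r)) := by
    refine ⟨⟨r * r, r, rfl⟩, ?_⟩
    rintro s _ ⟨t, rfl⟩
    exact ⟨s * t, mul_assoc s t r⟩
  obtain ⟨L, hL1, hLc, hL2⟩ := exists_min (op := fun a b : Ultrafilter ℕ+ => a * b)
    (fun a b c => mul_assoc a b c)
    (fun q => Ultrafilter.continuous_mul_left q) hleft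
    (isCompact_range (Ultrafilter.continuous_mul_left r)).isClosed
  obtain ⟨p, hp, hpp⟩ := exists_idempotent_in_compact_subsemigroup
    (M := Ultrafilter ℕ+) Ultrafilter.continuous_mul_left L hL2.1.1 hLc.isCompact
    (fun a _ b hb => hL2.1.2 a b hb)
  obtain ⟨s, hs⟩ := hL1 hp
  have hs' : s * r = p := hs
  refine ⟨p, hL2.subset hp, hpp, ?_, ?_⟩
  · intro B hB
    rw [← hs', mem_mul'] at hB
    obtain ⟨x, hx⟩ := hB.exists
    have hx' : {y : ℕ+ | x * y ∈ B} ∈ r := hx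
    rw [hr] at hx'
    obtain ⟨N, hN⟩ := hx'.exists
    obtain ⟨h1, L', hL', h2⟩ := (he1 N).dil x
    exact ⟨dil x (e N), hL'.subset h2, h1, hN⟩
  · rw [← hs', mem_mul']
    refine Filter.Eventually.of_forall fun x => ?_
    have : {y : ℕ+ | x * y ∈ A} ∈ r := by
      rw [hr]
      have hge : ∀ᶠ N in (ω : Filter ℕ), (x : ℕ) ≤ N := by
        have : {N : ℕ | (x : ℕ) ≤ N} ∈ Filter.hyperfilter ℕ := by
          refine Filter.mem_hyperfilter_of_finite_compl ?_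
          refine (Set.finite_lt_nat (x : ℕ)).subset ?_
          intro N hN
          simpa using hN
        exact this
      filter_upwards [hge] with N hN
      refine Filter.mem_of_superset (he2 N) ?_
      intro y hy
      exact hy x hN
    exact this

end Pool.Agent.Q117.BN
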